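import Mathlib

/-!
# Statements of the parts of the project SM

Strong monodromy conjecture (p-adic) for `f = x ^ A * (∑_j c_j x ^ m_j) ^ e`, the exponent vectors
`m_j` affinely independent, and, for every variable `x_i`, `x_i ∣ f` or no `m_j i` equals `1`.
-/

set_option autoImplicit false

namespace Pool.Agent.W426.SM

open MeasureTheory

/-- `b` satisfies `b(s) f ^ s = P(s) f ^ (s + 1)` (the formulation of the frozen statement). -/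
def IsBS {n : ℕ} (f : MvPolynomial (Fin n) ℚ) (b : Polynomial ℂ) : Prop :=
  ∃ (m : ℕ) (c : Fin m → MvPolynomial (Option (Fin n)) ℂ) (k : Fin m → ℕ)
      (w : (j : Fin m) → Fin (k j) → Fin n),
    ∀ (s : ℂ) (x : Fin n → ℝ), MvPolynomial.eval₂ (algebraMap ℚ ℝ) x f ≠ 0 →
      ∑ j, MvPolynomial.eval (fun o => Option.elim o s (fun i => ((x i : ℝ) : ℂ))) (c j) *
        iteratedFDeriv ℝ (k j)
          (fun y : Fin n → ℝ =>
            ((MvPolynomial.eval₂ (algebraMap ℚ ℝ) y f : ℝ) : ℂ) *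
              ((|MvPolynomial.eval₂ (algebraMap ℚ ℝ) y f| : ℝ) : ℂ) ^ s)
          x (fun l => Pi.single (w j l) (1 : ℝ))
      = b.eval s * ((|MvPolynomial.eval₂ (algebraMap ℚ ℝ) x f| : ℝ) : ℂ) ^ s

/-- The polynomial `x ^ A * (∑_j c_j x ^ m_j) ^ e`. -/
noncomputable def spoly {n k : ℕ} (A : Fin n → ℕ) (m : Fin k → Fin n → ℕ) (c : Fin k → ℚ)
    (e : ℕ) : MvPolynomial (Fin n) ℚ :=
  (∏ i, MvPolynomial.X i ^ A i) *
    (∑ j, MvPolynomial.C (c j) * ∏ i, MvPolynomial.X i ^ m j i) ^ e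

/-- The exponent vectors are affinely independent. -/
def AffInd {n k : ℕ} (m : Fin k → Fin n → ℕ) : Prop :=
  AffineIndependent ℚ (fun (j : Fin k) (i : Fin n) => (m j i : ℚ))

/-- The order of `∑_j c_j x ^ m_j` along the divisor of `a`. -/
noncomputable def gord {n k : ℕ} (m : Fin k → Fin n → ℕ) (a : Fin n → ℕ) : ℕ :=
  ⨅ j, ∑ i, a i * m j i

/-- The order of `x ^ A * (∑_j c_j x ^ m_j) ^ e` along the divisor of `a`. -/
noncomputable def ford {n k : ℕ} (A : Fin n → ℕ) (m : Fin k → Fin n → ℕ) (e : ℕ)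
    (a : Fin n → ℕ) : ℕ :=
  ∑ i, a i * A i + e * gord m a

/-- The monomials of minimal `a`-weight. -/
def face {n k : ℕ} (m : Fin k → Fin n → ℕ) (a : Fin n → ℕ) (j : Fin k) : Prop :=
  ∑ i, a i * m j i = gord m a

noncomputable instance {n k : ℕ} (m : Fin k → Fin n → ℕ) (a : Fin n → ℕ) (j : Fin k) :
    Decidable (face m a j) := Nat.decEq _ _

/-- `a` spans a ray of the normal fan of the Newton polyhedron. -/
def IsRay {n k : ℕ} (m : Fin k → Fin n → ℕ) (a : Fin n → ℕ) : Prop :=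
  a ≠ 0 ∧ ∀ u : Fin n → ℚ, (∀ i, a i = 0 → u i = 0) →
    (∀ j j', face m a j → face m a j' → ∑ i, u i * m j i = ∑ i, u i * m j' i) →
    ∃ r : ℚ, ∀ i, u i = r * a i

/-- Falling factorial `x (x-1) ⋯ (x-w+1)` for `w ≥ 0`, and `1 / ((x+1) ⋯ (x+|w|))` for `w < 0`. -/
noncomputable def ff (w : ℤ) (x : ℂ) : ℂ :=
  (∏ r ∈ Finset.range w.toNat, (x - r)) / ∏ r ∈ Finset.range (-w).toNat, (x + (r + 1))

/-! ### Root side -/

/-- (RA) the functional equation in terms of the exponents. -/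
def S_RA : Prop :=
  ∀ {n k : ℕ} (A : Fin n → ℕ) (m : Fin k → Fin n → ℕ) (c : Fin k → ℚ) (e : ℕ),
    AffInd m → (∀ j, c j ≠ 0) → 0 < k → 0 < e → ∀ b : Polynomial ℂ, IsBS (spoly A m c e) b →
    ∃ (L : ℕ) (q : Fin L → Polynomial ℂ) (ω : Fin L → Fin k → ℤ) (α β : Fin L → Fin n → ℕ),
      (∀ l, ∑ j, ω l j = -(e : ℤ)) ∧
      (∀ l i, (β l i : ℤ) - α l i = -(A i : ℤ) + ∑ j, ω l j * m j i) ∧
      ∀ t : Fin k → ℂ, (∀ (j : Fin k) (r : ℕ), t j ≠ -((r : ℂ) + 1)) →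
        b.eval ((∑ j, t j) / e) =
          ∑ l, (q l).eval ((∑ j, t j) / e) * (∏ r ∈ Finset.range e, ((∑ j, t j) + (r + 1))) *
            (∏ j, ff (ω l j) (t j)) *
            ∏ i, ∏ r ∈ Finset.range (α l i),
              ((∑ j, t j) / e * A i + ∑ j, t j * m j i - ((β l i : ℂ) - α l i) - r)

/-- An affine form with real coefficients, on `ℂ ^ B`. -/
noncomputable def aff {B : Type} [Fintype B] (a : ℝ) (ℓ : B → ℝ) (z : B → ℂ) : ℂ :=
  (a : ℂ) + ∑ b, (ℓ b : ℂ) * z b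

/-- the integrand `exp (R η(z) + ∑ z_b ^ 2) * P(z) / ∏_q ℓ_q(z)` -/
noncomputable def EE {B : Type} [Fintype B] {M : ℕ} (η : B → ℝ) (R : ℝ)
    (P : MvPolynomial B ℂ) (a : Fin M → ℝ) (ℓ : Fin M → B → ℝ) (z : B → ℂ) : ℂ :=
  Complex.exp ((R : ℂ) * (∑ b, (η b : ℂ) * z b) + ∑ b, z b ^ 2) *
    (MvPolynomial.eval z P / ∏ q, aff (a q) (ℓ q) z)

/-- (RC1) the integral over the imaginary directions does not change when the real part moves in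
a region without poles. -/
def S_RC1 : Prop :=
  ∀ (B : Type) [Fintype B] {M : ℕ} (η : B → ℝ) (R : ℝ) (P : MvPolynomial B ℂ)
    (a : Fin M → ℝ) (ℓ : Fin M → B → ℝ) (x ω : B → ℝ),
    (∀ r : ℝ, 0 ≤ r → r ≤ 1 → ∀ q, a q + ∑ b, ℓ q b * (x b + r * ω b) ≠ 0) →
    Integrable (fun y : B → ℝ => EE η R P a ℓ (fun b => (x b : ℂ) + y b * Complex.I)) volume ∧
    ∫ y : B → ℝ, EE η R P a ℓ (fun b => (x b : ℂ) + y b * Complex.I) =
      ∫ y : B → ℝ, EE η R P a ℓ (fun b => ((x b + ω b : ℝ) : ℂ) + y b * Complex.I)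

/-- (RC2) bound of the integral, uniform in `R` up to the exponential factor. -/
def S_RC2 : Prop :=
  ∀ (B : Type) [Fintype B] {M : ℕ} (η : B → ℝ) (P : MvPolynomial B ℂ)
    (a : Fin M → ℝ) (ℓ : Fin M → B → ℝ) (x : B → ℝ),
    (∀ q, a q + ∑ b, ℓ q b * x b ≠ 0) →
    ∃ C : ℝ, ∀ R : ℝ,
      ‖∫ y : B → ℝ, EE η R P a ℓ (fun b => (x b : ℂ) + y b * Complex.I)‖ ≤
        C * Real.exp (R * ∑ b, η b * x b)

/-- (RC3) the main term. -/
def S_RC3 : Prop :=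
  ∀ (B : Type) [Fintype B] (η x : B → ℝ), (∀ b, 0 < η b) → (∀ b, 0 < x b) →
    Filter.Tendsto (fun R : ℝ => ∫ y : B → ℝ,
      Complex.exp ((R : ℂ) * (∑ b, (η b : ℂ) * ((x b : ℂ) + y b * Complex.I)) +
        ∑ b, ((x b : ℂ) + y b * Complex.I) ^ 2) / ∏ b, ((x b : ℂ) + y b * Complex.I))
      Filter.atTop (nhds ((2 * Real.pi : ℂ) ^ Fintype.card B))

/-- (RC) no-residue lemma. -/
def S_RC : Prop :=
  ∀ (B : Type) [Fintype B] (η p : B → ℝ) (β : Polynomial ℂ) {L : ℕ} (M : Fin L → ℕ)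
    (P : Fin L → MvPolynomial B ℂ) (a : (l : Fin L) → Fin (M l) → ℝ)
    (ℓ : (l : Fin L) → Fin (M l) → B → ℝ) (ω : Fin L → B → ℝ),
    (∀ b, 0 < η b) → (∀ b, 0 < p b) → (∀ l, ∑ b, η b * ω l b < 0) →
    (∀ l q, a l q ≠ 0 ∨ (0 < ∑ b, ℓ l q b * p b ∧ 0 ≤ ∑ b, ℓ l q b * ω l b)) →
    (∃ ε₀ : ℝ, 0 < ε₀ ∧ ∀ ε : ℝ, 0 < ε → ε < ε₀ → ∀ y : B → ℝ,
      β.eval (∑ b, (η b : ℂ) * (((ε * p b : ℝ) : ℂ) + y b * Complex.I)) /
          ∏ b, (((ε * p b : ℝ) : ℂ) + y b * Complex.I) =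
        ∑ l, MvPolynomial.eval (fun b => ((ε * p b : ℝ) : ℂ) + y b * Complex.I) (P l) /
          ∏ q, aff (a l q) (ℓ l q) (fun b => ((ε * p b : ℝ) : ℂ) + y b * Complex.I)) →
    β.eval 0 = 0

/-- the coordinates: the variables not in `Z` and the monomials not on the face -/
abbrev BB {n k : ℕ} (m : Fin k → Fin n → ℕ) (a : Fin n → ℕ) : Type :=
  {i : Fin n // a i ≠ 0} ⊕ {j : Fin k // ¬ face m a j}

/-- (RL) the linear algebra of a ray. -/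
def S_RL : Prop :=
  ∀ {n k : ℕ} (A : Fin n → ℕ) (m : Fin k → Fin n → ℕ) (e : ℕ) (a : Fin n → ℕ),
    0 < k → 0 < e → (∀ i, A i ≠ 0 ∨ ∀ j, m j i ≠ 1) →
    IsRay m a → 0 < ford A m e a →
    (∃ r : ℕ, 1 ≤ r ∧ r ≤ e ∧ ((∑ i, a i : ℕ) : ℚ) / ford A m e a = (r : ℚ) / e) ∨
    ∃ (t₀ : Fin k → ℝ) (Λ : Fin k → BB m a → ℝ) (p : BB m a → ℝ),
      (∀ b, 0 < p b) ∧
      (∀ j, ¬ face m a j → t₀ j = 0) ∧
      (∀ j (h : ¬ face m a j) b, Λ j b = if b = Sum.inr ⟨j, h⟩ then -1 else 0) ∧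
      (∀ i, a i ≠ 0 → (∑ j, t₀ j) / e * A i + ∑ j, t₀ j * m j i = -1) ∧
      (∀ i (h : a i ≠ 0) b, (∑ j, Λ j b) / e * A i + ∑ j, Λ j b * m j i =
        if b = Sum.inl ⟨i, h⟩ then 1 else 0) ∧
      (∀ j, face m a j → (∃ r : ℕ, t₀ j = -((r : ℝ) + 1)) →
        (∑ b, Λ j b * p b < 0) ∧
        ∀ ω : Fin k → ℝ,
          ∑ i : {i : Fin n // a i ≠ 0}, Λ j (Sum.inl i) *
              ((∑ j', ω j') / e * A i + ∑ j', ω j' * m j' i) +
            ∑ l : {j : Fin k // ¬ face m a j}, Λ j (Sum.inr l) * (- ω l) = ω j)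

/-- Root side. -/
def S_Root : Prop :=
  ∀ {n k : ℕ} (A : Fin n → ℕ) (m : Fin k → Fin n → ℕ) (c : Fin k → ℚ) (e : ℕ),
    AffInd m → (∀ j, c j ≠ 0) → 2 ≤ k → 0 < e → (∀ i, A i ≠ 0 ∨ ∀ j, m j i ≠ 1) →
    ∀ b : Polynomial ℂ, IsBS (spoly A m c e) b →
    (∀ r : ℕ, 1 ≤ r → r ≤ e → b.eval (-((r : ℂ) / e)) = 0) ∧
    ∀ a : Fin n → ℕ, IsRay m a → 0 < ford A m e a →
      b.eval (-(((∑ i, a i : ℕ) : ℂ) / ford A m e a)) = 0

/-! ### Zeta side -/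

/-- the lattice points of a polyhedron in the orthant -/
def poly {n r : ℕ} (h : Fin r → Fin n → ℤ) (d : Fin r → ℤ) (E : Finset (Fin r)) :
    Set (Fin n → ℕ) :=
  {u | (∀ j, d j ≤ ∑ i, h j i * (u i : ℤ)) ∧ ∀ j ∈ E, d j = ∑ i, h j i * (u i : ℤ)}

/-- (ZC) generating functions of lattice points of rational polyhedra: the sum is a polynomial
divided by factors `1 - y ^ a`, `a` an extreme ray of the recession cone. -/
def S_ZC : Prop :=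
  ∀ {n r : ℕ} (h : Fin r → Fin n → ℤ) (d : Fin r → ℤ) (E : Finset (Fin r)),
    ∃ (T : ℕ) (ray : Fin T → Fin n → ℕ) (P : MvPolynomial (Fin n) ℤ),
      (∀ q, ray q ≠ 0 ∧ (∀ j, 0 ≤ ∑ i, h j i * (ray q i : ℤ)) ∧
        (∀ j ∈ E, ∑ i, h j i * (ray q i : ℤ) = 0) ∧
        ∀ u : Fin n → ℚ, (∀ i, ray q i = 0 → u i = 0) →
          (∀ j, ∑ i, h j i * (ray q i : ℤ) = 0 → ∑ i, (h j i : ℚ) * u i = 0) →
          ∃ ρ : ℚ, ∀ i, u i = ρ * ray q i) ∧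
      ∀ y : Fin n → ℂ, (∀ i, ‖y i‖ < 1) →
        (∑' u : poly h d E, ∏ i, y i ^ (u : Fin n → ℕ) i) * ∏ q, (1 - ∏ i, y i ^ ray q i) =
          MvPolynomial.aeval y P

/-- the polynomial function on `ℤ_p ^ n` -/
noncomputable def pval {n : ℕ} (p : ℕ) [Fact p.Prime] (f : MvPolynomial (Fin n) ℚ)
    (x : Fin n → PadicInt p) : ℝ :=
  ‖MvPolynomial.eval₂ (algebraMap ℚ (Padic p)) (fun i => ((x i : PadicInt p) : Padic p)) f‖

/-- `∑_j c_j p ^ δ_j y ^ m_j` -/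
noncomputable def gp {n k : ℕ} (p : ℕ) [Fact p.Prime] (m : Fin k → Fin n → ℕ) (c : Fin k → ℚ)
    (δ : Fin k → ℕ) (y : Fin n → PadicInt p) : Padic p :=
  ∑ j, (c j : Padic p) * (p : Padic p) ^ δ j * ∏ i, ((y i : PadicInt p) : Padic p) ^ m j i

/-- (ZMU) distribution of the order on the units. -/
def S_ZMU : Prop :=
  ∀ {n k : ℕ} (m : Fin k → Fin n → ℕ) (c : Fin k → ℚ), AffInd m → (∀ j, c j ≠ 0) →
    ∃ S : Finset ℕ, ∀ (p : ℕ) [Fact p.Prime], p ∉ S →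
      ∀ [MeasurableSpace (Fin n → PadicInt p)] [BorelSpace (Fin n → PadicInt p)],
      ∃ C₀ C₁ : Finset (Fin k) → ℝ, ∀ δ : Fin k → ℕ, (∃ j, δ j = 0) →
        ((Measure.addHaar : Measure (Fin n → PadicInt p))
            {y | (∀ i, ‖y i‖ = 1) ∧ ‖gp p m c δ y‖ = 1}).toReal =
          ((Measure.addHaar : Measure (Fin n → PadicInt p)) Set.univ).toReal *
            C₀ (Finset.univ.filter fun j => δ j = 0) ∧
        ∀ l : ℕ, ((Measure.addHaar : Measure (Fin n → PadicInt p))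
            {y | (∀ i, ‖y i‖ = 1) ∧ ‖gp p m c δ y‖ = (p : ℝ) ^ (-((l : ℤ) + 1))}).toReal =
          ((Measure.addHaar : Measure (Fin n → PadicInt p)) Set.univ).toReal *
            C₁ (Finset.univ.filter fun j => δ j = 0) * (p : ℝ) ^ (-(l : ℤ))

/-- (ZMA) joint distribution of the orders. -/
def S_ZMA : Prop :=
  ∀ {n k : ℕ} (m : Fin k → Fin n → ℕ) (c : Fin k → ℚ), AffInd m → (∀ j, c j ≠ 0) → 0 < k →
    ∃ S : Finset ℕ, ∀ (p : ℕ) [Fact p.Prime], p ∉ S →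
      ∀ [MeasurableSpace (Fin n → PadicInt p)] [BorelSpace (Fin n → PadicInt p)],
      ∃ C₀ C₁ : Finset (Fin k) → ℝ, ∀ u : Fin n → ℕ,
        ((Measure.addHaar : Measure (Fin n → PadicInt p))
            {x | (∀ i, ‖x i‖ = (p : ℝ) ^ (-(u i : ℤ))) ∧
              ‖gp p m c 0 x‖ = (p : ℝ) ^ (-(gord m u : ℤ))}).toReal =
          ((Measure.addHaar : Measure (Fin n → PadicInt p)) Set.univ).toReal *
            (p : ℝ) ^ (-((∑ i, u i : ℕ) : ℤ)) *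
            C₀ (Finset.univ.filter fun j => ∑ i, u i * m j i = gord m u) ∧
        ∀ l : ℕ, ((Measure.addHaar : Measure (Fin n → PadicInt p))
            {x | (∀ i, ‖x i‖ = (p : ℝ) ^ (-(u i : ℤ))) ∧
              ‖gp p m c 0 x‖ = (p : ℝ) ^ (-((gord m u : ℤ) + (l + 1)))}).toReal =
          ((Measure.addHaar : Measure (Fin n → PadicInt p)) Set.univ).toReal *
            (p : ℝ) ^ (-((∑ i, u i : ℕ) : ℤ)) *
            C₁ (Finset.univ.filter fun j => ∑ i, u i * m j i = gord m u) * (p : ℝ) ^ (-(l : ℤ))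

/-- (ZM) the zeta function as a sum over the valuations. -/
def S_ZM : Prop :=
  ∀ {n k : ℕ} (A : Fin n → ℕ) (m : Fin k → Fin n → ℕ) (c : Fin k → ℚ) (e : ℕ),
    AffInd m → (∀ j, c j ≠ 0) → 0 < k → 0 < e →
    ∃ S : Finset ℕ, ∀ (p : ℕ) [Fact p.Prime], p ∉ S →
      ∀ [MeasurableSpace (Fin n → PadicInt p)] [BorelSpace (Fin n → PadicInt p)],
      ∃ (V : ℝ) (C₀ C₁ : Finset (Fin k) → ℝ), 0 < V ∧
        ∀ s : ℂ, 0 < s.re →
          ∫ x, ((pval p (spoly A m c e) x : ℝ) : ℂ) ^ s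
              ∂(Measure.addHaar : Measure (Fin n → PadicInt p)) =
            V * ∑' u : Fin n → ℕ,
              ((p : ℂ) ^ (-(((∑ i, u i : ℕ) : ℂ) + s * ford A m e u))) *
                ((C₀ (Finset.univ.filter fun j => ∑ i, u i * m j i = gord m u) : ℂ) +
                  (C₁ (Finset.univ.filter fun j => ∑ i, u i * m j i = gord m u) : ℂ) *
                    ((p : ℂ) ^ (-(e * s)) / (1 - (p : ℂ) ^ (-(1 + e * s)))))

/-- (ZF) the zeta function has poles only on the lines of the rays and `-1/e`. -/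
def S_ZF : Prop :=
  ∀ {n k : ℕ} (A : Fin n → ℕ) (m : Fin k → Fin n → ℕ) (c : Fin k → ℚ) (e : ℕ),
    AffInd m → (∀ j, c j ≠ 0) → 0 < k → 0 < e →
    ∃ S : Finset ℕ, ∀ (p : ℕ) [Fact p.Prime], p ∉ S →
      ∀ [MeasurableSpace (Fin n → PadicInt p)] [BorelSpace (Fin n → PadicInt p)],
      ∃ (T : ℕ) (ray : Fin T → Fin n → ℕ) (H : ℂ → ℂ), (∀ q, IsRay m (ray q)) ∧
        Differentiable ℂ H ∧ ∀ s : ℂ, 0 < s.re →
          H s = (1 - (p : ℂ) ^ (-(1 + e * s))) *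
            (∏ q, (1 - (p : ℂ) ^ (-(((∑ i, ray q i : ℕ) : ℂ) + s * ford A m e (ray q))))) *
            ∫ x, ((pval p (spoly A m c e) x : ℝ) : ℂ) ^ s
              ∂(Measure.addHaar : Measure (Fin n → PadicInt p))

/-- (ZP) location of the poles of a meromorphic continuation. -/
def S_ZP : Prop :=
  ∀ (p : ℕ) (_ : 2 ≤ p) (I F H : ℂ → ℂ) {T : ℕ} (ν N : Fin T → ℕ),
    (∀ q, 0 < ν q) → MeromorphicOn F Set.univ → Differentiable ℂ H →
    (∀ s : ℂ, 0 < s.re → F s = I s) →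
    (∀ s : ℂ, 0 < s.re → H s = (∏ q, (1 - (p : ℂ) ^ (-((ν q : ℂ) + s * N q)))) * I s) →
    ∀ s₀ : ℂ, meromorphicOrderAt F s₀ < 0 →
      ∃ q, 0 < N q ∧ s₀.re = -((ν q : ℝ) / N q)

/-- The final theorem. -/
def S_Final : Prop :=
  ∀ {n k : ℕ} (A : Fin n → ℕ) (m : Fin k → Fin n → ℕ) (c : Fin k → ℚ) (e : ℕ),
    AffInd m → (∀ j, c j ≠ 0) → 2 ≤ k → 0 < e → (∀ i, A i ≠ 0 ∨ ∀ j, m j i ≠ 1) →
    ∃ S : Finset ℕ, ∀ (p : ℕ) [Fact p.Prime], p ∉ S →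
      ∀ [MeasurableSpace (Fin n → PadicInt p)] [BorelSpace (Fin n → PadicInt p)],
      ∀ F : ℂ → ℂ, MeromorphicOn F Set.univ →
        (∀ s : ℂ, 0 < s.re →
          F s = ∫ x, ((‖MvPolynomial.eval₂ (algebraMap ℚ (Padic p))
                    (fun i => ((x i : PadicInt p) : Padic p)) (spoly A m c e)‖ : ℝ) : ℂ) ^ s
                  ∂(MeasureTheory.Measure.addHaar : MeasureTheory.Measure (Fin n → PadicInt p))) →
        ∀ s₀ : ℂ, meromorphicOrderAt F s₀ < 0 → ∀ b : Polynomial ℂ,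
          IsBS (spoly A m c e) b → b.eval (s₀.re : ℂ) = 0

end Pool.Agent.W426.SM
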