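import Pool.Agent.W426.SM.Stm

set_option autoImplicit false

namespace Pool.Agent.W426.SM

open MeasureTheory

theorem final_asm (hR : S_Root) (hZ : S_ZF) (hP : S_ZP) : S_Final := by
  intro n k A m c e hm hc hk he hA
  obtain ⟨S, hS⟩ := hZ A m c e hm hc (by omega) he
  refine ⟨S, ?_⟩
  intro p hp hpS _ _ F hF hFI s₀ hs₀ b hb
  obtain ⟨T, ray, H, hray, hH, hHI⟩ := hS p hpS
  obtain ⟨r1, r2⟩ := hR A m c e hm hc hk he hA b hb
  set I : ℂ → ℂ := fun s => ∫ x, ((pval p (spoly A m c e) x : ℝ) : ℂ) ^ s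
              ∂(Measure.addHaar : Measure (Fin n → PadicInt p)) with hI
  have hz := hP p hp.out.two_le I F H (Fin.cons 1 (fun q => ∑ i, ray q i) : Fin (T + 1) → ℕ)
    (Fin.cons e (fun q => ford A m e (ray q)) : Fin (T + 1) → ℕ) ?_ hF hH ?_ ?_ s₀ hs₀
  · obtain ⟨q, hq1, hq2⟩ := hz
    refine Fin.cases ?_ ?_ q hq1 hq2
    · intro h1 h2
      simp only [Fin.cons_zero] at h1 h2
      have := r1 1 le_rfl he
      rw [h2]
      push_cast at this ⊢
      exact this
    · intro q h1 h2
      simp only [Fin.cons_succ] at h1 h2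
      have := r2 (ray q) (hray q) h1
      rw [h2]
      push_cast at this ⊢
      exact this
  · intro q
    refine Fin.cases ?_ ?_ q
    · simp
    · intro q
      simp only [Fin.cons_succ]
      by_contra h
      have h0 : ∑ i, ray q i = 0 := by omega
      rw [Finset.sum_eq_zero_iff] at h0
      exact (hray q).1 (funext fun i => h0 i (Finset.mem_univ i))
  · intro s hs
    exact hFI s hs
  · intro s hs
    rw [hHI s hs, Fin.prod_univ_succ]
    simp only [Fin.cons_zero, Fin.cons_succ, Nat.cast_one]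
    rw [mul_comm s (e : ℂ)]

end Pool.Agent.W426.SM
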