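import Pool.Agent.W426.SM.RootAsm
import Pool.Agent.W426.SM.FinalAsm
import Pool.Agent.W930.SM.RC1
import Pool.Agent.W475.SM.RC2
import Pool.Agent.W505.SM.SMRC3
import Pool.Agent.W505.SM.SMRC
import Pool.Agent.W85.SMRL
import Pool.Agent.W565.SMZC
import Pool.Agent.W424.SM.ZMU
import Pool.Agent.W22.SM.ZMA
import Pool.Agent.W803.SM.ZF
import Pool.Agent.W22.SM.ZP
import Pool.Agent.W249.SM.RA
import Pool.Agent.W880.SM.ZM

namespace Pool.Agent.W426.SM

theorem rc : S_RC := Pool.Agent.W505.SM.RC.main Pool.Agent.W930.SM.RC1.main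
  Pool.Agent.W475.SM.main Pool.Agent.W505.SM.RC3.main

theorem root : S_Root := root_asm Pool.Agent.W249.SM.main rc Pool.Agent.W85.SMRL.main

theorem final : S_Final := final_asm root
  (Pool.Agent.W803.SM.main Pool.Agent.W565.SMZC.main
    (Pool.Agent.W880.SM.main (Pool.Agent.W22.SM.ZMA.main Pool.Agent.W424.SM.ZMU.main)))
  Pool.Agent.W22.SM.ZP.main

end Pool.Agent.W426.SM
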