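import Pool.Agent.W426.SM.RootD

set_option autoImplicit false

namespace Pool.Agent.W426.SM

open Finset

section
open MvPolynomial
variable {n k : ℕ} {m : Fin k → Fin n → ℕ} {a : Fin n → ℕ}

/-- index of the denominators -/
abbrev QQ (m : Fin k → Fin n → ℕ) (a : Fin n → ℕ) (ω : Fin k → ℤ) : Type :=
  BB m a ⊕ (Σ j : Fin k, Fin (-(ω j)).toNat)

open Classical in
noncomputable def aQ (t₀ : Fin k → ℝ) (ω : Fin k → ℤ) (α β : Fin n → ℕ) : QQ m a ω → ℝ
  | Sum.inl b => if cancel m a ω α β b then 1 else 0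
  | Sum.inr q => t₀ q.1 + ((q.2 : ℕ) + 1)

open Classical in
noncomputable def lQ (Λ : Fin k → BB m a → ℝ) (ω : Fin k → ℤ) (α β : Fin n → ℕ) :
    QQ m a ω → BB m a → ℝ
  | Sum.inl b => if cancel m a ω α β b then 0 else Pi.single b 1
  | Sum.inr q => Λ q.1

open Classical in
lemma prod_aff (t₀ : Fin k → ℝ) (Λ : Fin k → BB m a → ℝ) (ω : Fin k → ℤ) (α β : Fin n → ℕ)
    (z : BB m a → ℂ) :
    ∏ q : QQ m a ω, aff (aQ t₀ ω α β q) (lQ Λ ω α β q) z =
      (∏ b : BB m a, (if cancel m a ω α β b then 1 else z b)) *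
        ∏ j, ∏ r ∈ range (-(ω j)).toNat, (tv t₀ Λ z j + (r + 1)) := by
  rw [Fintype.prod_sum_type, Fintype.prod_sigma]
  congr 1
  · refine Finset.prod_congr rfl fun b _ => ?_
    simp only [aff, aQ, lQ]
    by_cases h : cancel m a ω α β b
    · simp [h]
    · rw [if_neg h, if_neg h, if_neg h, Finset.sum_eq_single b]
      · simp
      · intro b' _ hb'
        rw [Pi.single_eq_of_ne hb']; simp
      · intro h; exact absurd (Finset.mem_univ _) h
  · refine Finset.prod_congr rfl fun j _ => ?_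
    rw [Finset.prod_range]
    refine Finset.prod_congr rfl fun r _ => ?_
    simp only [aff, aQ, lQ, tv]
    push_cast; ring

/-- evaluation of a univariate polynomial at a multivariate one -/
lemma eval_aeval {B : Type} (P : MvPolynomial B ℂ) (q : Polynomial ℂ) (z : B → ℂ) :
    eval z (Polynomial.aeval P q) = q.eval (eval z P) := by
  have := Polynomial.hom_eval₂ q (algebraMap ℂ (MvPolynomial B ℂ)) (eval z) P
  rw [Polynomial.aeval_def, this, ← Polynomial.eval₂_id]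
  congr 1
  ext x
  simp [MvPolynomial.algebraMap_eq]

open Classical in
/-- one term of the functional equation -/
lemma term_eq (A : Fin n → ℕ) {e : ℕ} (he : 0 < e) (t₀ : Fin k → ℝ)
    (Λ : Fin k → BB m a → ℝ)
    (h2 : ∀ j, ¬ face m a j → t₀ j = 0)
    (h3 : ∀ j (h : ¬ face m a j) b, Λ j b = if b = Sum.inr ⟨j, h⟩ then -1 else 0)
    (h4 : ∀ i, a i ≠ 0 → (∑ j, t₀ j) / e * A i + ∑ j, t₀ j * m j i = -1)
    (h5 : ∀ i (h : a i ≠ 0) b, (∑ j, Λ j b) / e * A i + ∑ j, Λ j b * m j i =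
        if b = Sum.inl ⟨i, h⟩ then 1 else 0)
    (q : Polynomial ℂ) (ω : Fin k → ℤ) (α β : Fin n → ℕ) :
    ∃ P : MvPolynomial (BB m a) ℂ, ∀ z : BB m a → ℂ, (∀ b, z b ≠ 0) →
      (q.eval ((∑ j, tv t₀ Λ z j) / e) * (∏ r ∈ range e, ((∑ j, tv t₀ Λ z j) + (r + 1))) *
            (∏ j, ff (ω j) (tv t₀ Λ z j)) *
            ∏ i, ∏ r ∈ range (α i),
              ((∑ j, tv t₀ Λ z j) / e * A i + ∑ j, tv t₀ Λ z j * m j i -
                ((β i : ℂ) - α i) - r)) / ∏ b, z b =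
        eval z P / ∏ q : QQ m a ω, aff (aQ t₀ ω α β q) (lQ Λ ω α β q) z := by
  have hF := fac_div A t₀ Λ h2 h3 h4 h5 ω α β
  choose R hR using hF
  refine ⟨Polynomial.aeval (sP e t₀ Λ) q *
    (∏ r ∈ range e, (C (e : ℂ) * sP e t₀ Λ + C ((r : ℂ) + 1))) *
    (∏ j : {j // face m a j}, NB t₀ Λ ω j) * (∏ i : {i // ¬ a i ≠ 0}, NC A e t₀ Λ α β i) *
    ∏ b, R b, fun z hz => ?_⟩
  rw [prod_aff]
  simp only [map_mul, map_prod, eval_aeval, eval_sP, map_add, eval_C]
  set T : ℂ := ∑ j, tv t₀ Λ z j with hT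
  have hee : (e : ℂ) ≠ 0 := by exact_mod_cast he.ne'
  have e1 : ∀ r : ℕ, (e : ℂ) * (T / e) + ((r : ℂ) + 1) = T + (r + 1) := by
    intro r; rw [mul_div_cancel₀ _ hee]
  simp only [e1]
  -- numerators
  have eN : ∏ j, ff (ω j) (tv t₀ Λ z j) =
      ((∏ j : {j // face m a j}, eval z (NB t₀ Λ ω j)) *
        ∏ j : {j // ¬ face m a j}, eval z (NB t₀ Λ ω j)) /
        ∏ j, ∏ r ∈ range (-(ω j)).toNat, (tv t₀ Λ z j + (r + 1)) := by
    rw [Fintype.prod_subtype_mul_prod_subtype (face m a) (fun j => eval z (NB t₀ Λ ω j)),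
      ← Finset.prod_div_distrib]
    refine Finset.prod_congr rfl fun j _ => ?_
    simp only [ff, NB, map_prod, map_sub, eval_C, eval_tP, sub_zero]
  have eC : ∏ i, ∏ r ∈ range (α i),
              (T / e * A i + ∑ j, tv t₀ Λ z j * m j i - ((β i : ℂ) - α i) - r) =
      (∏ i : {i // a i ≠ 0}, eval z (NC A e t₀ Λ α β i)) *
        ∏ i : {i // ¬ a i ≠ 0}, eval z (NC A e t₀ Λ α β i) := by
    rw [Fintype.prod_subtype_mul_prod_subtype (fun i => a i ≠ 0)
      (fun i => eval z (NC A e t₀ Λ α β i))]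
    refine Finset.prod_congr rfl fun i _ => ?_
    simp only [NC, map_prod, map_sub, eval_C, eval_vP]
    rfl
  have eF : (∏ i : {i // a i ≠ 0}, eval z (NC A e t₀ Λ α β i)) *
      (∏ j : {j // ¬ face m a j}, eval z (NB t₀ Λ ω j)) =
      (∏ b, eval z (R b)) * ∏ b : BB m a, (if cancel m a ω α β b then z b else 1) := by
    rw [← Finset.prod_mul_distrib]
    simp only [← hR]
    rw [Fintype.prod_sum_type]
    rfl
  have eZ : ∏ b, z b = (∏ b : BB m a, (if cancel m a ω α β b then z b else 1)) *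
      ∏ b : BB m a, (if cancel m a ω α β b then 1 else z b) := by
    rw [← Finset.prod_mul_distrib]
    refine Finset.prod_congr rfl fun b _ => ?_
    split_ifs <;> simp
  have hY : (∏ b : BB m a, (if cancel m a ω α β b then z b else 1)) ≠ 0 := by
    rw [Finset.prod_ne_zero_iff]
    intro b _
    split_ifs
    · exact hz b
    · exact one_ne_zero
  rw [eN, eC, eZ]
  set Y := ∏ b : BB m a, (if cancel m a ω α β b then z b else 1) with hYd
  set Zc := ∏ b : BB m a, (if cancel m a ω α β b then 1 else z b) with hZc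
  set D := ∏ j, ∏ r ∈ range (-(ω j)).toNat, (tv t₀ Λ z j + (r + 1)) with hD
  set RR := ∏ b, eval z (R b) with hRR
  set NBf := ∏ j : {j // face m a j}, eval z (NB t₀ Λ ω j)
  set NBn := ∏ j : {j // ¬ face m a j}, eval z (NB t₀ Λ ω j)
  set NC1 := ∏ i : {i // a i ≠ 0}, eval z (NC A e t₀ Λ α β i)
  set NC2 := ∏ i : {i // ¬ a i ≠ 0}, eval z (NC A e t₀ Λ α β i)
  set q1 := q.eval (T / e)
  set q2 := ∏ r ∈ range e, (T + (r + 1))
  have e5 : q1 * q2 * (NBf * NBn / D) * (NC1 * NC2) / (Y * Zc) =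
      (q1 * q2 * NBf * NC2 * (NC1 * NBn)) / (Y * (Zc * D)) := by
    rw [mul_div_assoc', div_mul_eq_mul_div, div_div]
    congr 1 <;> ring
  rw [e5, eF]
  have e6 : q1 * q2 * NBf * NC2 * (RR * Y) = Y * (q1 * q2 * NBf * NC2 * RR) := by ring
  rw [e6, mul_div_mul_left _ _ hY]

end

end Pool.Agent.W426.SM
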