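import Pool.Agent.W426.SM.RootE

set_option autoImplicit false

namespace Pool.Agent.W426.SM

open Finset

lemma root_core (hRC : S_RC) {n k : ℕ} (A : Fin n → ℕ) (m : Fin k → Fin n → ℕ) (e : ℕ)
    (a : Fin n → ℕ) (he : 0 < e) (hford : 0 < ford A m e a)
    (t₀ : Fin k → ℝ) (Λ : Fin k → BB m a → ℝ) (p : BB m a → ℝ)
    (h1 : ∀ b, 0 < p b)
    (h2 : ∀ j, ¬ face m a j → t₀ j = 0)
    (h3 : ∀ j (h : ¬ face m a j) b, Λ j b = if b = Sum.inr ⟨j, h⟩ then -1 else 0)
    (h4 : ∀ i, a i ≠ 0 → (∑ j, t₀ j) / e * A i + ∑ j, t₀ j * m j i = -1)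
    (h5 : ∀ i (h : a i ≠ 0) b, (∑ j, Λ j b) / e * A i + ∑ j, Λ j b * m j i =
        if b = Sum.inl ⟨i, h⟩ then 1 else 0)
    (h6 : ∀ j, face m a j → (∃ r : ℕ, t₀ j = -((r : ℝ) + 1)) →
        (∑ b, Λ j b * p b < 0) ∧
        ∀ ω : Fin k → ℝ,
          ∑ i : {i : Fin n // a i ≠ 0}, Λ j (Sum.inl i) *
              ((∑ j', ω j') / e * A i + ∑ j', ω j' * m j' i) +
            ∑ l : {j : Fin k // ¬ face m a j}, Λ j (Sum.inr l) * (- ω l) = ω j)
    (b : Polynomial ℂ) {L : ℕ} (q : Fin L → Polynomial ℂ) (ω : Fin L → Fin k → ℤ)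
    (α β : Fin L → Fin n → ℕ)
    (hω1 : ∀ l, ∑ j, ω l j = -(e : ℤ))
    (hω2 : ∀ l i, (β l i : ℤ) - α l i = -(A i : ℤ) + ∑ j, ω l j * m j i)
    (hid : ∀ t : Fin k → ℂ, (∀ (j : Fin k) (r : ℕ), t j ≠ -((r : ℂ) + 1)) →
        b.eval ((∑ j, t j) / e) =
          ∑ l, (q l).eval ((∑ j, t j) / e) * (∏ r ∈ Finset.range e, ((∑ j, t j) + (r + 1))) *
            (∏ j, ff (ω l j) (t j)) *
            ∏ i, ∏ r ∈ Finset.range (α l i),
              ((∑ j, t j) / e * A i + ∑ j, t j * m j i - ((β l i : ℂ) - α l i) - r)) :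
    b.eval (-(((∑ i, a i : ℕ) : ℂ) / ford A m e a)) = 0 := by
  classical
  have hfR : (ford A m e a : ℝ) ≠ 0 := by exact_mod_cast hford.ne'
  have hfpos : (0 : ℝ) < ford A m e a := by exact_mod_cast hford
  have heR : (e : ℝ) ≠ 0 := by exact_mod_cast he.ne'
  have hs0 := s0_eq t₀ he h2 h4
  set s₀ : ℝ := (∑ j, t₀ j) / e with hs₀
  have hs0' : s₀ = -(((∑ i, a i : ℕ) : ℝ) / ford A m e a) := by
    field_simp; linarith
  set κ : BB m a → ℝ := fun b => (∑ j, Λ j b) / e with hκ
  have hκ1 : ∀ i : {i : Fin n // a i ≠ 0}, κ (Sum.inl i) * (ford A m e a : ℝ) = a i :=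
    fun i => kap_inl Λ he h3 h5 i
  have hκ2 : ∀ l : {j : Fin k // ¬ face m a j}, κ (Sum.inr l) * (ford A m e a : ℝ) =
      ((∑ i, a i * m l i : ℕ) : ℝ) - gord m a := fun l => kap_inr Λ he h3 h5 l
  have hκpos : ∀ b, 0 < κ b := by
    intro b
    rcases b with i | l
    · have := hκ1 i
      have h0 : (0 : ℝ) < a i := by exact_mod_cast Nat.pos_of_ne_zero i.2
      rw [← this] at h0
      exact (pos_iff_pos_of_mul_pos h0).mpr hfpos
    · have := hκ2 l
      have h0 : (0 : ℝ) < ((∑ i, a i * m l i : ℕ) : ℝ) - gord m a := by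
        have h1 := gord_le m a l
        have h2 : gord m a ≠ ∑ i, a i * m l i := fun h => l.2 h.symm
        have h3 : gord m a < ∑ i, a i * m l i := lt_of_le_of_ne h1 h2
        have : (gord m a : ℝ) < ((∑ i, a i * m l i : ℕ) : ℝ) := by exact_mod_cast h3
        linarith
      rw [← this] at h0
      exact (pos_iff_pos_of_mul_pos h0).mpr hfpos
  have hdir : ∀ l, ∑ b, κ b * wdir A m a (ω l) b = -1 := by
    intro l
    have := eta_wdir A m e a (ω l) (hω1 l) κ hκ1 hκ2
    have h : (∑ b, κ b * wdir A m a (ω l) b + 1) * (ford A m e a : ℝ) = 0 := by linarith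
    rcases mul_eq_zero.mp h with h | h
    · linarith
    · exact absurd h hfR
  -- the directions agree
  have hωR : ∀ l, (∑ j, ((ω l j : ℤ) : ℝ)) = -(e : ℝ) := fun l => by exact_mod_cast hω1 l
  have hLdir : ∀ l j, face m a j → (∃ r : ℕ, t₀ j = -((r : ℝ) + 1)) →
      ∑ b, Λ j b * wdir A m a (ω l) b = ω l j := by
    intro l j hj hr
    have := (h6 j hj hr).2 (fun j => (ω l j : ℝ))
    rw [← this, Fintype.sum_sum_type]
    congr 1
    refine Finset.sum_congr rfl fun i _ => ?_
    congr 1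
    simp only [wdir]
    rw [hωR l]
    push_cast
    rw [neg_div, div_self heR]
    ring
  have hmain := fun l => term_eq A he t₀ Λ h2 h3 h4 h5 (q l) (ω l) (α l) (β l)
  choose P hP using hmain
  have key := RC_var hRC (BB m a) κ p (b.comp (Polynomial.X + Polynomial.C (s₀ : ℂ)))
    (fun l => QQ m a (ω l)) P (fun l => aQ t₀ (ω l) (α l) (β l))
    (fun l => lQ Λ (ω l) (α l) (β l)) (fun l => wdir A m a (ω l)) hκpos h1
    (fun l => by rw [hdir l]; norm_num) ?_ ?_
  · rw [Polynomial.eval_comp] at key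
    simp only [Polynomial.eval_add, Polynomial.eval_X, Polynomial.eval_C, zero_add] at key
    rw [hs0'] at key
    push_cast at key ⊢
    exact key
  · -- conditions on the forms
    intro l x
    rcases x with b' | x
    · by_cases hc : cancel m a (ω l) (α l) (β l) b'
      · left; simp [aQ, hc]
      · right; left
        have e1 : ∀ y : BB m a → ℝ, ∑ b, lQ Λ (ω l) (α l) (β l) (Sum.inl b') b * y b = y b' := by
          intro y
          simp only [lQ, if_neg hc]
          rw [Finset.sum_eq_single b']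
          · simp
          · intro b'' _ hb
            rw [Pi.single_eq_of_ne hb, zero_mul]
          · intro h; exact absurd (Finset.mem_univ _) h
        rw [e1, e1]
        refine ⟨h1 b', ?_⟩
        rcases b' with i | j
        · have hc' : ¬ ((β l i : ℤ) - α l i < 0) := hc
          rw [hω2 l i] at hc'
          push Not at hc'
          simp only [wdir]
          exact_mod_cast hc'
        · have hc' : ¬ (0 < ω l j) := hc
          push Not at hc'
          simp only [wdir]
          have : ((ω l j : ℤ) : ℝ) ≤ 0 := by exact_mod_cast hc'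
          linarith
    · by_cases h0 : t₀ x.1 + ((x.2 : ℕ) + 1) = 0
      · right; right
        have hj : face m a x.1 := by
          by_contra hn
          rw [h2 _ hn] at h0
          have : (0 : ℝ) < 0 + (((x.2 : ℕ) : ℝ) + 1) := by positivity
          linarith
        have hr : ∃ r : ℕ, t₀ x.1 = -((r : ℝ) + 1) := ⟨x.2, by linarith⟩
        have e1 := (h6 x.1 hj hr).1
        have e2 := hLdir l x.1 hj hr
        simp only [lQ]
        refine ⟨e1, ?_⟩
        rw [e2]
        have h3 : (x.2 : ℕ) < (-(ω l x.1)).toNat := x.2.2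
        have h4 : ω l x.1 ≤ 0 := by omega
        exact_mod_cast h4
      · left; simpa [aQ] using h0
  · -- the identity
    have hev : ∀ᶠ ε : ℝ in nhdsWithin 0 (Set.Ioi 0), ∀ j : Fin k, ∀ r : ℕ,
        t₀ j + ε * (∑ b, Λ j b * p b) ≠ -((r : ℝ) + 1) := by
      rw [Filter.eventually_all]
      intro j
      apply avoid
      rintro hr
      have hj : face m a j := by
        by_contra hn
        obtain ⟨r, hr⟩ := hr
        rw [h2 _ hn] at hr
        have : (0 : ℝ) < (r : ℝ) + 1 := by positivity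
        linarith
      exact (h6 j hj hr).1
    obtain ⟨ε₀, hε₀, hsub⟩ := mem_nhdsGT_iff_exists_Ioo_subset.mp hev
    refine ⟨ε₀, hε₀, fun ε hε1 hε2 y => ?_⟩
    have hε := hsub ⟨hε1, hε2⟩
    set z : BB m a → ℂ := fun b => ((ε * p b : ℝ) : ℂ) + y b * Complex.I with hz
    have hzre : ∀ b, (z b).re = ε * p b := by
      intro b; simp [hz]
    have hz0 : ∀ b, z b ≠ 0 := by
      intro b h
      have h' := congrArg Complex.re h
      rw [hzre b, Complex.zero_re] at h'
      exact absurd h' (mul_pos hε1 (h1 b)).ne'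
    have ht : ∀ (j : Fin k) (r : ℕ), tv t₀ Λ z j ≠ -((r : ℂ) + 1) := by
      intro j r h
      apply hε j r
      have h' := congrArg Complex.re h
      simp only [tv, Complex.add_re, Complex.re_sum, Complex.ofReal_re, Complex.re_ofReal_mul,
        Complex.neg_re, Complex.natCast_re, Complex.one_re, hzre] at h'
      rw [← h', Finset.mul_sum]
      congr 1
      refine Finset.sum_congr rfl fun b _ => by ring
    have hidz := hid (tv t₀ Λ z) ht
    have hs : (∑ j, tv t₀ Λ z j) / e = ∑ b, (κ b : ℂ) * z b + s₀ := by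
      rw [← eval_sP (e := e) t₀ Λ z]
      simp only [sP, map_add, map_sum, map_mul, MvPolynomial.eval_C, MvPolynomial.eval_X, hκ, hs₀]
      ring
    rw [Polynomial.eval_comp]
    simp only [Polynomial.eval_add, Polynomial.eval_X, Polynomial.eval_C]
    rw [← hs, hidz, Finset.sum_div]
    refine Finset.sum_congr rfl fun l _ => ?_
    rw [hP l z hz0]

theorem root_asm (hRA : S_RA) (hRC : S_RC) (hRL : S_RL) : S_Root := by
  intro n k A m c e hm hc hk he hA b hb
  obtain ⟨L, q, ω, α, β, hω1, hω2, hid⟩ := hRA A m c e hm hc (by omega) he b hb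
  have heC : (e : ℂ) ≠ 0 := by exact_mod_cast he.ne'
  have part1 : ∀ r : ℕ, 1 ≤ r → r ≤ e → b.eval (-((r : ℂ) / e)) = 0 := by
    intro r hr1 hr2
    set i0 : Fin k := ⟨0, by omega⟩ with hi0
    set i1 : Fin k := ⟨1, by omega⟩ with hi1
    have h01 : i0 ≠ i1 := by simp [hi0, hi1]
    set t : Fin k → ℂ := fun j => if j = i0 then (1 / 2 : ℂ) else
      if j = i1 then (-(r : ℂ) - 1 / 2) else 0 with ht
    have hsum : ∑ j, t j = -(r : ℂ) := by
      have e1 : ∑ j, t j = t i0 + t i1 := by
        rw [← Finset.sum_pair h01]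
        symm
        apply Finset.sum_subset (Finset.subset_univ _)
        intro j _ hj
        simp only [Finset.mem_insert, Finset.mem_singleton, not_or] at hj
        simp [ht, hj.1, hj.2]
      rw [e1]
      simp only [ht, if_true, if_neg h01.symm]
      ring
    have htne : ∀ (j : Fin k) (r' : ℕ), t j ≠ -((r' : ℂ) + 1) := by
      intro j r' h
      simp only [ht] at h
      split_ifs at h
      · have h' := congrArg Complex.re h
        simp at h'
        have : (0 : ℝ) < (2 : ℝ)⁻¹ := by norm_num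
        have h2 : (0 : ℝ) ≤ r' := Nat.cast_nonneg _
        linarith
      · have h' : (2 * (r : ℂ) + 1) = 2 * r' + 2 := by linear_combination -2 * h
        have h'' : (2 * r + 1 : ℕ) = 2 * r' + 2 := by exact_mod_cast h'
        omega
      · have h' : ((r' + 1 : ℕ) : ℂ) = 0 := by push_cast; linear_combination h
        have h'' : r' + 1 = 0 := by exact_mod_cast h'
        omega
    have := hid t htne
    rw [hsum] at this
    rw [show -((r : ℂ) / e) = -(r : ℂ) / e by ring, this]
    apply Finset.sum_eq_zero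
    intro l _
    have hz : ∏ r' ∈ Finset.range e, (-(r : ℂ) + ((r' : ℂ) + 1)) = 0 := by
      apply Finset.prod_eq_zero (i := r - 1)
      · rw [Finset.mem_range]; omega
      · have : ((r - 1 : ℕ) : ℂ) = (r : ℂ) - 1 := by
          rw [Nat.cast_sub hr1]; simp
        rw [this]; ring
    rw [hz]; ring
  refine ⟨part1, fun a ha hford => ?_⟩
  rcases hRL A m e a (by omega) he hA ha hford with ⟨r, hr1, hr2, hr⟩ | h
  · have := part1 r hr1 hr2
    have e1 : (((∑ i, a i : ℕ) : ℂ) / ford A m e a) = (r : ℂ) / e := by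
      have h2 := congrArg (fun x : ℚ => (x : ℂ)) hr
      simp only [Rat.cast_div, Rat.cast_natCast] at h2
      exact h2
    rw [e1]; exact this
  · obtain ⟨t₀, Λ, p, h1, h2, h3, h4, h5, h6⟩ := h
    exact root_core hRC A m e a he hford t₀ Λ p h1 h2 h3 h4 h5 h6 b q ω α β hω1 hω2 hid

end Pool.Agent.W426.SM
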