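import Pool.Agent.W426.SM.Stm

set_option autoImplicit false

namespace Pool.Agent.W426.SM

open Finset

lemma RC_var (hRC : S_RC) (B : Type) [Fintype B] (η p : B → ℝ) (β : Polynomial ℂ) {L : ℕ}
    (Q : Fin L → Type) [∀ l, Fintype (Q l)] (P : Fin L → MvPolynomial B ℂ)
    (a : (l : Fin L) → Q l → ℝ) (ℓ : (l : Fin L) → Q l → B → ℝ) (ω : Fin L → B → ℝ)
    (hη : ∀ b, 0 < η b) (hp : ∀ b, 0 < p b) (hω : ∀ l, ∑ b, η b * ω l b < 0)
    (hq : ∀ l q, a l q ≠ 0 ∨ (0 < ∑ b, ℓ l q b * p b ∧ 0 ≤ ∑ b, ℓ l q b * ω l b) ∨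
      (∑ b, ℓ l q b * p b < 0 ∧ ∑ b, ℓ l q b * ω l b ≤ 0))
    (hid : ∃ ε₀ : ℝ, 0 < ε₀ ∧ ∀ ε : ℝ, 0 < ε → ε < ε₀ → ∀ y : B → ℝ,
      β.eval (∑ b, (η b : ℂ) * (((ε * p b : ℝ) : ℂ) + y b * Complex.I)) /
          ∏ b, (((ε * p b : ℝ) : ℂ) + y b * Complex.I) =
        ∑ l, MvPolynomial.eval (fun b => ((ε * p b : ℝ) : ℂ) + y b * Complex.I) (P l) /
          ∏ q, aff (a l q) (ℓ l q) (fun b => ((ε * p b : ℝ) : ℂ) + y b * Complex.I)) :
    β.eval 0 = 0 := by
  classical
  set sg : (l : Fin L) → Q l → ℝ := fun l q =>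
    if a l q = 0 ∧ ∑ b, ℓ l q b * p b < 0 then -1 else 1 with hsg
  have hsg0 : ∀ l q, sg l q ≠ 0 := by
    intro l q; simp only [hsg]; split_ifs <;> norm_num
  have haff : ∀ l q (z : B → ℂ), aff (a l q) (fun b => sg l q * ℓ l q b) z =
      (sg l q : ℂ) * aff (a l q) (ℓ l q) z := by
    intro l q z
    unfold aff
    rw [mul_add, Finset.mul_sum]
    congr 1
    · by_cases h : a l q = 0 ∧ ∑ b, ℓ l q b * p b < 0
      · rw [h.1]; simp
      · simp only [hsg, if_neg h]; simp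
    · refine Finset.sum_congr rfl fun b _ => ?_
      push_cast; ring
  refine hRC B η p β (fun l => Fintype.card (Q l))
    (fun l => MvPolynomial.C (∏ q, (sg l q : ℂ)) * P l)
    (fun l q => a l ((Fintype.equivFin (Q l)).symm q))
    (fun l q b => sg l ((Fintype.equivFin (Q l)).symm q) * ℓ l ((Fintype.equivFin (Q l)).symm q) b)
    ω hη hp hω ?_ ?_
  · intro l q
    set q' := (Fintype.equivFin (Q l)).symm q with hq'
    rcases hq l q' with h | h | h
    · exact Or.inl h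
    · right
      have : sg l q' = 1 := by
        simp only [hsg]; rw [if_neg]; intro h2; exact absurd h2.2 (not_lt.mpr h.1.le)
      rw [this]; simpa using h
    · by_cases h0 : a l q' = 0
      · right
        have : sg l q' = -1 := by
          simp only [hsg]; rw [if_pos ⟨h0, h.1⟩]
        rw [this]
        have e1 : ∀ x : B → ℝ, ∑ b, -1 * ℓ l q' b * x b = - ∑ b, ℓ l q' b * x b := by
          intro x; rw [← Finset.sum_neg_distrib]; refine Finset.sum_congr rfl fun b _ => by ring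
        rw [e1, e1]
        exact ⟨by linarith [h.1], by linarith [h.2]⟩
      · exact Or.inl h0
  · obtain ⟨ε₀, h0, h⟩ := hid
    refine ⟨ε₀, h0, fun ε h1 h2 y => ?_⟩
    rw [h ε h1 h2 y]
    refine Finset.sum_congr rfl fun l _ => ?_
    set z : B → ℂ := fun b => ((ε * p b : ℝ) : ℂ) + y b * Complex.I with hz
    have e : ∏ q : Fin (Fintype.card (Q l)), aff (a l ((Fintype.equivFin (Q l)).symm q))
        (fun b => sg l ((Fintype.equivFin (Q l)).symm q) *
          ℓ l ((Fintype.equivFin (Q l)).symm q) b) z =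
        ∏ q : Q l, aff (a l q) (fun b => sg l q * ℓ l q b) z :=
      Fintype.prod_equiv (Fintype.equivFin (Q l)).symm _ _ (fun q => rfl)
    rw [e, map_mul, MvPolynomial.eval_C]
    simp only [haff]
    rw [Finset.prod_mul_distrib]
    have hne : (∏ q, (sg l q : ℂ)) ≠ 0 := by
      rw [Finset.prod_ne_zero_iff]; intro q _; exact_mod_cast hsg0 l q
    rw [mul_div_mul_left _ _ hne]

end Pool.Agent.W426.SM
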