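import Pool.Agent.W426.SM.RootA

set_option autoImplicit false

namespace Pool.Agent.W426.SM

open Finset

lemma gord_le {n k : ℕ} (m : Fin k → Fin n → ℕ) (a : Fin n → ℕ) (j : Fin k) :
    gord m a ≤ ∑ i, a i * m j i := ciInf_le (OrderBot.bddBelow _) j

/-- a real affine function of `ε` avoids the negative integers for small `ε > 0` -/
lemma avoid (x g : ℝ) (h : (∃ r : ℕ, x = -((r : ℝ) + 1)) → g < 0) :
    ∀ᶠ ε : ℝ in nhdsWithin 0 (Set.Ioi 0), ∀ r : ℕ, x + ε * g ≠ -((r : ℝ) + 1) := by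
  rcases lt_trichotomy g 0 with hg | hg | hg
  · have hpos : 0 < (x - (⌈x⌉ - 1)) / (-g) := by
      apply div_pos _ (by linarith)
      have := Int.ceil_lt_add_one x
      linarith
    filter_upwards [Ioo_mem_nhdsGT hpos] with ε hε r hr
    obtain ⟨h1, h2⟩ := hε
    rw [lt_div_iff₀ (by linarith)] at h2
    have h3 : (⌈x⌉ : ℝ) - 1 < x + ε * g := by linarith
    have h4 : x + ε * g < ⌈x⌉ := by
      have := Int.le_ceil x
      have : ε * g < 0 := mul_neg_of_pos_of_neg h1 hg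
      linarith
    rw [hr] at h3 h4
    have h5 : (⌈x⌉ : ℤ) - 1 < -((r : ℤ) + 1) := by exact_mod_cast h3
    have h6 : -((r : ℤ) + 1) < ⌈x⌉ := by exact_mod_cast h4
    omega
  · refine Filter.Eventually.of_forall fun ε r hr => ?_
    rw [hg, mul_zero, add_zero] at hr
    exact absurd (h ⟨r, hr⟩) (by rw [hg]; exact lt_irrefl 0)
  · have hpos : 0 < (⌊x⌋ + 1 - x) / g := by
      apply div_pos _ hg
      have := Int.lt_floor_add_one x
      linarith
    filter_upwards [Ioo_mem_nhdsGT hpos] with ε hε r hr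
    obtain ⟨h1, h2⟩ := hε
    rw [lt_div_iff₀ hg] at h2
    have h3 : x + ε * g < ⌊x⌋ + 1 := by linarith
    have h4 : (⌊x⌋ : ℝ) < x + ε * g := by
      have := Int.floor_le x
      have : 0 < ε * g := mul_pos h1 hg
      linarith
    rw [hr] at h3 h4
    have h5 : -((r : ℤ) + 1) < ⌊x⌋ + 1 := by exact_mod_cast h3
    have h6 : ⌊x⌋ < -((r : ℤ) + 1) := by exact_mod_cast h4
    omega

section
variable {n k : ℕ} (A : Fin n → ℕ) (m : Fin k → Fin n → ℕ) (e : ℕ) (a : Fin n → ℕ)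

lemma sum_face (x : Fin k → ℝ) (hx : ∀ j, ¬ face m a j → x j = 0) :
    ∑ j, x j * ((∑ i, a i * m j i : ℕ) : ℝ) = (∑ j, x j) * gord m a := by
  rw [Finset.sum_mul]
  refine Finset.sum_congr rfl fun j _ => ?_
  by_cases h : face m a j
  · rw [h]
  · rw [hx j h]; ring

lemma weigh (x : Fin k → ℝ) (y : ℝ) :
    ∑ i, (a i : ℝ) * (y * A i + ∑ j, x j * m j i) =
      y * ((∑ i, a i * A i : ℕ) : ℝ) + ∑ j, x j * ((∑ i, a i * m j i : ℕ) : ℝ) := by
  push_cast
  simp only [mul_add, Finset.sum_add_distrib, Finset.mul_sum]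
  congr 1
  · refine Finset.sum_congr rfl fun i _ => by ring
  · rw [Finset.sum_comm]
    refine Finset.sum_congr rfl fun j _ => Finset.sum_congr rfl fun i _ => by ring

variable {A m e a} (t₀ : Fin k → ℝ) (Λ : Fin k → BB m a → ℝ)

lemma s0_eq (he : 0 < e) (h2 : ∀ j, ¬ face m a j → t₀ j = 0)
    (h4 : ∀ i, a i ≠ 0 → (∑ j, t₀ j) / e * A i + ∑ j, t₀ j * m j i = -1) :
    (∑ j, t₀ j) / e * (ford A m e a : ℝ) = -((∑ i, a i : ℕ) : ℝ) := by
  have e1 := weigh A m a t₀ ((∑ j, t₀ j) / e)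
  rw [sum_face m a t₀ h2] at e1
  have e2 : ∑ i, (a i : ℝ) * ((∑ j, t₀ j) / e * A i + ∑ j, t₀ j * m j i) =
      -((∑ i, a i : ℕ) : ℝ) := by
    push_cast
    rw [← Finset.sum_neg_distrib]
    refine Finset.sum_congr rfl fun i _ => ?_
    by_cases h : a i = 0
    · rw [h]; simp
    · rw [h4 i h]; ring
  rw [← e2, e1]
  unfold ford
  push_cast
  have : (e : ℝ) ≠ 0 := by positivity
  field_simp

lemma kap_inl (he : 0 < e)
    (h3 : ∀ j (h : ¬ face m a j) b, Λ j b = if b = Sum.inr ⟨j, h⟩ then -1 else 0)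
    (h5 : ∀ i (h : a i ≠ 0) b, (∑ j, Λ j b) / e * A i + ∑ j, Λ j b * m j i =
        if b = Sum.inl ⟨i, h⟩ then 1 else 0) (i : {i : Fin n // a i ≠ 0}) :
    (∑ j, Λ j (Sum.inl i)) / e * (ford A m e a : ℝ) = a i := by
  set b : BB m a := Sum.inl i with hb
  have e1 := weigh A m a (fun j => Λ j b) ((∑ j, Λ j b) / e)
  rw [sum_face m a (fun j => Λ j b) (fun j hj => by rw [h3 j hj b, if_neg (by rw [hb]; exact Sum.inl_ne_inr)])] at e1
  have e2 : ∑ i', (a i' : ℝ) * ((∑ j, Λ j b) / e * A i' + ∑ j, Λ j b * m j i') = a i := by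
    rw [Finset.sum_eq_single i.1]
    · rw [h5 i.1 i.2 b, if_pos hb, mul_one]
    · intro i' _ hne
      by_cases h : a i' = 0
      · rw [h]; simp
      · rw [h5 i' h b, if_neg, mul_zero]
        rw [hb]; intro hc
        exact hne (congrArg Subtype.val (Sum.inl_injective hc)).symm
    · intro h; exact absurd (Finset.mem_univ _) h
  rw [← e2, e1]
  unfold ford
  push_cast
  have : (e : ℝ) ≠ 0 := by positivity
  field_simp

lemma kap_inr (he : 0 < e)
    (h3 : ∀ j (h : ¬ face m a j) b, Λ j b = if b = Sum.inr ⟨j, h⟩ then -1 else 0)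
    (h5 : ∀ i (h : a i ≠ 0) b, (∑ j, Λ j b) / e * A i + ∑ j, Λ j b * m j i =
        if b = Sum.inl ⟨i, h⟩ then 1 else 0) (l : {j : Fin k // ¬ face m a j}) :
    (∑ j, Λ j (Sum.inr l)) / e * (ford A m e a : ℝ) =
      ((∑ i, a i * m l i : ℕ) : ℝ) - gord m a := by
  set b : BB m a := Sum.inr l with hb
  have e1 := weigh A m a (fun j => Λ j b) ((∑ j, Λ j b) / e)
  have e3 : ∑ j, Λ j b * ((∑ i, a i * m j i : ℕ) : ℝ) =
      (∑ j, Λ j b) * gord m a - (((∑ i, a i * m l i : ℕ) : ℝ) - gord m a) := by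
    rw [Finset.sum_mul, ← sub_eq_zero, ← sub_add, ← Finset.sum_sub_distrib]
    rw [Finset.sum_eq_single l.1]
    · rw [h3 l.1 l.2 b, if_pos hb]; ring
    · intro j _ hne
      by_cases h : face m a j
      · rw [h]; ring
      · rw [h3 j h b, if_neg]; · ring
        rw [hb]; intro hc
        exact hne (congrArg Subtype.val (Sum.inr_injective hc)).symm
    · intro h; exact absurd (Finset.mem_univ _) h
  have e2 : ∑ i', (a i' : ℝ) * ((∑ j, Λ j b) / e * A i' + ∑ j, Λ j b * m j i') = 0 := by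
    refine Finset.sum_eq_zero fun i' _ => ?_
    by_cases h : a i' = 0
    · rw [h]; simp
    · rw [h5 i' h b, if_neg, mul_zero]
      rw [hb]; exact Sum.inr_ne_inl
  rw [e2, e3] at e1
  unfold ford
  push_cast at e1 ⊢
  have : (e : ℝ) ≠ 0 := by positivity
  field_simp
  field_simp at e1
  linarith

end

end Pool.Agent.W426.SM
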