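import Pool.Agent.W426.SM.RootB

set_option autoImplicit false

namespace Pool.Agent.W426.SM

open Finset

lemma sum_sub_of_zero {ι : Type} [Fintype ι] (p : ι → Prop) [DecidablePred p] (f : ι → ℝ)
    (h : ∀ i, ¬ p i → f i = 0) : ∑ i : {i // p i}, f i = ∑ i, f i := by
  rw [← Fintype.sum_subtype_add_sum_subtype p f]
  have : ∑ i : {i // ¬ p i}, f i = 0 := Finset.sum_eq_zero fun i _ => h i.1 i.2
  rw [this, add_zero]

section
variable {n k : ℕ} {A : Fin n → ℕ} {m : Fin k → Fin n → ℕ} {e : ℕ} {a : Fin n → ℕ}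

/-- direction of a term -/
noncomputable def wdir (A : Fin n → ℕ) (m : Fin k → Fin n → ℕ) (a : Fin n → ℕ)
    (ω : Fin k → ℤ) : BB m a → ℝ
  | Sum.inl i => (((-(A i : ℤ) + ∑ j, ω j * m j i : ℤ)) : ℝ)
  | Sum.inr l => -(ω l : ℝ)

lemma eta_wdir (A : Fin n → ℕ) (m : Fin k → Fin n → ℕ) (e : ℕ) (a : Fin n → ℕ)
    (ω : Fin k → ℤ) (hω : ∑ j, ω j = -(e : ℤ)) (κ : BB m a → ℝ)
    (h1 : ∀ i, κ (Sum.inl i) * (ford A m e a : ℝ) = a i)
    (h2 : ∀ l : {j : Fin k // ¬ face m a j}, κ (Sum.inr l) * (ford A m e a : ℝ) =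
      ((∑ i, a i * m l i : ℕ) : ℝ) - gord m a) :
    (∑ b, κ b * wdir A m a ω b) * (ford A m e a : ℝ) = -(ford A m e a : ℝ) := by
  rw [Fintype.sum_sum_type, add_mul, Finset.sum_mul, Finset.sum_mul]
  have e1 : ∑ i : {i : Fin n // a i ≠ 0}, κ (Sum.inl i) * wdir A m a ω (Sum.inl i) *
      (ford A m e a : ℝ) = ∑ i, (a i : ℝ) * ((-1 : ℝ) * (A i : ℝ) + ∑ j, (ω j : ℝ) * m j i) := by
    rw [← sum_sub_of_zero (fun i => a i ≠ 0)]
    · refine Finset.sum_congr rfl fun i _ => ?_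
      have : κ (Sum.inl i) * wdir A m a ω (Sum.inl i) * (ford A m e a : ℝ) =
        (κ (Sum.inl i) * (ford A m e a : ℝ)) * wdir A m a ω (Sum.inl i) := by ring
      rw [this, h1 i]
      simp only [wdir]; push_cast; ring
    · intro i hi
      rw [not_not] at hi
      rw [hi]; simp
  have e2 : ∑ l : {j : Fin k // ¬ face m a j}, κ (Sum.inr l) * wdir A m a ω (Sum.inr l) *
      (ford A m e a : ℝ) =
      ∑ j, -((((∑ i, a i * m j i : ℕ) : ℝ) - gord m a) * (ω j : ℝ)) := by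
    rw [← sum_sub_of_zero (fun j => ¬ face m a j)]
    · refine Finset.sum_congr rfl fun l _ => ?_
      have : κ (Sum.inr l) * wdir A m a ω (Sum.inr l) * (ford A m e a : ℝ) =
        (κ (Sum.inr l) * (ford A m e a : ℝ)) * wdir A m a ω (Sum.inr l) := by ring
      rw [this, h2 l]
      simp only [wdir]; ring
    · intro j hj
      rw [not_not] at hj
      rw [hj]; simp
  rw [e1, e2, weigh A m a (fun j => (ω j : ℝ)) (-1)]
  have e3 : ∑ j, -((((∑ i, a i * m j i : ℕ) : ℝ) - gord m a) * (ω j : ℝ)) =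
      - ∑ j, (ω j : ℝ) * ((∑ i, a i * m j i : ℕ) : ℝ) + (∑ j, (ω j : ℝ)) * gord m a := by
    rw [Finset.sum_mul, ← Finset.sum_neg_distrib, ← Finset.sum_add_distrib]
    refine Finset.sum_congr rfl fun j _ => by ring
  have e4 : ∑ j, (ω j : ℝ) = -(e : ℝ) := by exact_mod_cast hω
  rw [e3, e4]
  unfold ford
  push_cast
  ring

end

/-! polynomial factors -/

section
open MvPolynomial

/-- one factor `∏_{r<N} (Q - c - r)` with a root extracted -/
lemma extract {B : Type} (Q : MvPolynomial B ℂ) (c : ℂ) (N : ℕ) (r₀ : ℕ) (hr : r₀ < N) :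
    ∃ R : MvPolynomial B ℂ, (∏ r ∈ Finset.range N, (Q - C c - C (r : ℂ))) =
      R * (Q - C c - C (r₀ : ℂ)) := by
  refine ⟨∏ r ∈ (Finset.range N).erase r₀, (Q - C c - C (r : ℂ)), ?_⟩
  rw [Finset.prod_erase_mul _ _ (Finset.mem_range.mpr hr)]

end

end Pool.Agent.W426.SM
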