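import Pool.Agent.W426.SM.RootC

set_option autoImplicit false

namespace Pool.Agent.W426.SM

open Finset

section
open MvPolynomial
variable {n k : ℕ} {m : Fin k → Fin n → ℕ} {a : Fin n → ℕ}

noncomputable def tP (t₀ : Fin k → ℝ) (Λ : Fin k → BB m a → ℝ) (j : Fin k) :
    MvPolynomial (BB m a) ℂ := C (t₀ j : ℂ) + ∑ b, C (Λ j b : ℂ) * X b

noncomputable def sP (e : ℕ) (t₀ : Fin k → ℝ) (Λ : Fin k → BB m a → ℝ) :
    MvPolynomial (BB m a) ℂ :=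
  C (((∑ j, t₀ j) / e : ℝ) : ℂ) + ∑ b, C ((((∑ j, Λ j b) / e : ℝ)) : ℂ) * X b

noncomputable def vP (A : Fin n → ℕ) (e : ℕ) (t₀ : Fin k → ℝ) (Λ : Fin k → BB m a → ℝ)
    (i : Fin n) : MvPolynomial (BB m a) ℂ :=
  sP e t₀ Λ * C (A i : ℂ) + ∑ j, tP t₀ Λ j * C (m j i : ℂ)

noncomputable def tv (t₀ : Fin k → ℝ) (Λ : Fin k → BB m a → ℝ) (z : BB m a → ℂ) (j : Fin k) :
    ℂ := (t₀ j : ℂ) + ∑ b, (Λ j b : ℂ) * z b

lemma eval_tP (t₀ : Fin k → ℝ) (Λ : Fin k → BB m a → ℝ) (z : BB m a → ℂ) (j : Fin k) :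
    eval z (tP t₀ Λ j) = tv t₀ Λ z j := by
  simp [tP, tv]

lemma eval_sP {e : ℕ} (t₀ : Fin k → ℝ) (Λ : Fin k → BB m a → ℝ)
    (z : BB m a → ℂ) : eval z (sP e t₀ Λ) = (∑ j, tv t₀ Λ z j) / e := by
  simp only [sP, tv, map_add, map_sum, map_mul, eval_C, eval_X, Finset.sum_add_distrib]
  have h : ∑ j : Fin k, ∑ b : BB m a, (Λ j b : ℂ) * z b =
      ∑ b : BB m a, ∑ j : Fin k, (Λ j b : ℂ) * z b := Finset.sum_comm
  rw [h]
  push_cast
  rw [add_div]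
  congr 1
  rw [Finset.sum_div]
  refine Finset.sum_congr rfl fun b _ => ?_
  rw [← Finset.sum_mul]; ring

lemma eval_vP (A : Fin n → ℕ) {e : ℕ} (t₀ : Fin k → ℝ)
    (Λ : Fin k → BB m a → ℝ) (z : BB m a → ℂ) (i : Fin n) :
    eval z (vP A e t₀ Λ i) =
      (∑ j, tv t₀ Λ z j) / e * A i + ∑ j, tv t₀ Λ z j * m j i := by
  simp only [vP, map_add, map_sum, map_mul, eval_C, eval_sP, eval_tP]

/-- on the coordinates -/
lemma v_coord (A : Fin n → ℕ) {e : ℕ} (t₀ : Fin k → ℝ)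
    (Λ : Fin k → BB m a → ℝ)
    (h4 : ∀ i, a i ≠ 0 → (∑ j, t₀ j) / e * A i + ∑ j, t₀ j * m j i = -1)
    (h5 : ∀ i (h : a i ≠ 0) b, (∑ j, Λ j b) / e * A i + ∑ j, Λ j b * m j i =
        if b = Sum.inl ⟨i, h⟩ then 1 else 0) (z : BB m a → ℂ) (i : {i : Fin n // a i ≠ 0}) :
    (∑ j, tv t₀ Λ z j) / e * A i + ∑ j, tv t₀ Λ z j * m j i = z (Sum.inl i) - 1 := by
  have e0 : (∑ j, tv t₀ Λ z j) / e * A i + ∑ j, tv t₀ Λ z j * m j i =
      (((∑ j, t₀ j) / e * A i + ∑ j, t₀ j * m j i : ℝ) : ℂ) +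
      ∑ b, (((∑ j, Λ j b) / e * A i + ∑ j, Λ j b * m j i : ℝ) : ℂ) * z b := by
    simp only [tv]
    push_cast
    simp only [Finset.sum_add_distrib, add_mul, add_div, Finset.sum_mul, Finset.sum_div]
    rw [Finset.sum_comm (s := (univ : Finset (Fin k))) (t := (univ : Finset (BB m a))),
      Finset.sum_comm (s := (univ : Finset (Fin k))) (t := (univ : Finset (BB m a)))]
    have e1 : ∑ x : BB m a, ∑ x_1 : Fin k, (Λ x_1 x : ℂ) * z x / e * (A i : ℂ) =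
        ∑ x : BB m a, ∑ x_1 : Fin k, (Λ x_1 x : ℂ) / e * (A i : ℂ) * z x :=
      Finset.sum_congr rfl fun x _ => Finset.sum_congr rfl fun y _ => by ring
    have e2 : ∑ x : BB m a, ∑ x_1 : Fin k, (Λ x_1 x : ℂ) * z x * (m x_1 i : ℂ) =
        ∑ x : BB m a, ∑ x_1 : Fin k, (Λ x_1 x : ℂ) * (m x_1 i : ℂ) * z x :=
      Finset.sum_congr rfl fun x _ => Finset.sum_congr rfl fun y _ => by ring
    rw [e1, e2]
    ring
  rw [e0, h4 i.1 i.2]
  have e3 : ∑ b, (((∑ j, Λ j b) / e * A i + ∑ j, Λ j b * m j i : ℝ) : ℂ) * z b =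
      z (Sum.inl i) := by
    rw [Finset.sum_eq_single (Sum.inl i)]
    · rw [h5 i.1 i.2, if_pos rfl]; simp
    · intro b _ hb
      rw [h5 i.1 i.2, if_neg hb]; simp
    · intro h; exact absurd (Finset.mem_univ _) h
  rw [e3]; push_cast; ring

lemma t_coord (t₀ : Fin k → ℝ) (Λ : Fin k → BB m a → ℝ)
    (h2 : ∀ j, ¬ face m a j → t₀ j = 0)
    (h3 : ∀ j (h : ¬ face m a j) b, Λ j b = if b = Sum.inr ⟨j, h⟩ then -1 else 0)
    (z : BB m a → ℂ) (j : {j : Fin k // ¬ face m a j}) :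
    tv t₀ Λ z j = - z (Sum.inr j) := by
  simp only [tv]
  rw [h2 j.1 j.2, Finset.sum_eq_single (Sum.inr j)]
  · rw [h3 j.1 j.2, if_pos rfl]; simp
  · intro b _ hb
    rw [h3 j.1 j.2, if_neg hb]; simp
  · intro h; exact absurd (Finset.mem_univ _) h

/-- which coordinates cancel -/
def cancel (m : Fin k → Fin n → ℕ) (a : Fin n → ℕ) (ω : Fin k → ℤ) (α β : Fin n → ℕ) :
    BB m a → Prop
  | Sum.inl i => (β i : ℤ) - α i < 0
  | Sum.inr j => 0 < ω j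

noncomputable def NB (t₀ : Fin k → ℝ) (Λ : Fin k → BB m a → ℝ) (ω : Fin k → ℤ) (j : Fin k) :
    MvPolynomial (BB m a) ℂ :=
  ∏ r ∈ range (ω j).toNat, (tP t₀ Λ j - C (0 : ℂ) - C (r : ℂ))

noncomputable def NC (A : Fin n → ℕ) (e : ℕ) (t₀ : Fin k → ℝ) (Λ : Fin k → BB m a → ℝ)
    (α β : Fin n → ℕ) (i : Fin n) : MvPolynomial (BB m a) ℂ :=
  ∏ r ∈ range (α i), (vP A e t₀ Λ i - C ((β i : ℂ) - α i) - C (r : ℂ))

noncomputable def Fac (A : Fin n → ℕ) (e : ℕ) (t₀ : Fin k → ℝ) (Λ : Fin k → BB m a → ℝ)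
    (ω : Fin k → ℤ) (α β : Fin n → ℕ) : BB m a → MvPolynomial (BB m a) ℂ
  | Sum.inl i => NC A e t₀ Λ α β i
  | Sum.inr j => NB t₀ Λ ω j

open Classical in
lemma fac_div (A : Fin n → ℕ) {e : ℕ} (t₀ : Fin k → ℝ)
    (Λ : Fin k → BB m a → ℝ)
    (h2 : ∀ j, ¬ face m a j → t₀ j = 0)
    (h3 : ∀ j (h : ¬ face m a j) b, Λ j b = if b = Sum.inr ⟨j, h⟩ then -1 else 0)
    (h4 : ∀ i, a i ≠ 0 → (∑ j, t₀ j) / e * A i + ∑ j, t₀ j * m j i = -1)
    (h5 : ∀ i (h : a i ≠ 0) b, (∑ j, Λ j b) / e * A i + ∑ j, Λ j b * m j i =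
        if b = Sum.inl ⟨i, h⟩ then 1 else 0)
    (ω : Fin k → ℤ) (α β : Fin n → ℕ) (b : BB m a) :
    ∃ R : MvPolynomial (BB m a) ℂ, ∀ z : BB m a → ℂ,
      eval z (Fac A e t₀ Λ ω α β b) = eval z R * (if cancel m a ω α β b then z b else 1) := by
  by_cases hc : cancel m a ω α β b
  · rcases b with i | j
    · have hc' : (β i : ℤ) - α i < 0 := hc
      obtain ⟨R, hR⟩ := extract (vP A e t₀ Λ i) ((β i : ℂ) - α i) (α i) (α i - β i - 1) (by omega)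
      refine ⟨R, fun z => ?_⟩
      simp only [Fac, NC]
      rw [hR, map_mul, if_pos hc]
      congr 1
      simp only [map_sub, eval_C, eval_vP]
      rw [v_coord A t₀ Λ h4 h5 z i]
      have : ((α i - β i - 1 : ℕ) : ℂ) = (α i : ℂ) - β i - 1 := by
        have h : β i + 1 ≤ α i := by omega
        rw [Nat.sub_sub, Nat.cast_sub h]; push_cast; ring
      rw [this]; ring
    · have hc' : 0 < ω j := hc
      obtain ⟨R, hR⟩ := extract (tP t₀ Λ j) 0 (ω j).toNat 0 (by omega)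
      refine ⟨-R, fun z => ?_⟩
      simp only [Fac, NB]
      rw [hR, map_mul, if_pos hc]
      simp only [map_sub, eval_C, eval_tP, map_neg]
      rw [t_coord t₀ Λ h2 h3 z j]
      push_cast; ring
  · refine ⟨Fac A e t₀ Λ ω α β b, fun z => ?_⟩
    rw [if_neg hc, mul_one]

end

end Pool.Agent.W426.SM
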